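import Pool.Agent.Lob12.P1Fin
import Pool.Agent.Lob12.BadH2
import Pool.Agent.Lob34.CvBad
import Pool.Agent.Lob89.GgSel

/-!
Every lobster with at least three vertices is antimagic (`MP_f6a1ab_co`).
-/

open SimpleGraph Pool.Agent.Lob89

theorem Pool.Agent.Results.MP_f6a1ab_co.LobstersAntimagic.result.{u} :
    ∀ (V : Type u) [Fintype V] [DecidableEq V] (G : SimpleGraph V) [DecidableRel G.Adj],
      IsLobster G → 3 ≤ Fintype.card V → IsAntimagic G := by
  intro V _ _ G _ hL h3
  exact Pool.Agent.Lob12.lobster_main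
    (Pool.Agent.Lob34.cover_all (fun E _ _ => Pool.Agent.Lob12.eh_hxw E) Gg.hgg) V G hL h3
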